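import Pool.Agent.L0h47.GS.SPM
import Pool.Agent.L0h98.RF.Def

/-!
# Permutations which map a set of positions into a set of labels (helper24)
-/

set_option autoImplicit false

namespace Pool.Agent.L0h24.RF

open Finset
open Pool.Agent.L0h98.RF
open Pool.Agent.L0h47.GS

lemma mpx_desc {X : Type} [Fintype X] [DecidableEq X] (S T : Finset X) :
    (Fintype.card X).descFactorial S.card * (mpx S T).card ≤
      T.card.descFactorial S.card * (Fintype.card X).factorial := by
  induction S using Finset.induction_on with
  | empty =>
    have h1 : (mpx (∅ : Finset X) T).card ≤ (Fintype.card X).factorial := by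
      calc (mpx (∅ : Finset X) T).card ≤ (univ : Finset (Equiv.Perm X)).card :=
            card_le_card (filter_subset _ _)
        _ = (Fintype.card X).factorial := by rw [card_univ, Fintype.card_perm]
    simpa using h1
  | insert x S hx ih =>
    rw [card_insert_of_notMem hx, Nat.descFactorial_succ, Nat.descFactorial_succ]
    calc (Fintype.card X - S.card) * (Fintype.card X).descFactorial S.card *
          (mpx (insert x S) T).card =
          (Fintype.card X).descFactorial S.card *
            ((Fintype.card X - S.card) * (mpx (insert x S) T).card) := by ring
      _ ≤ (Fintype.card X).descFactorial S.card * ((T.card - S.card) * (mpx S T).card) :=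
          Nat.mul_le_mul_left _ (mpx_step S T x hx)
      _ = (T.card - S.card) * ((Fintype.card X).descFactorial S.card * (mpx S T).card) := by ring
      _ ≤ (T.card - S.card) * (T.card.descFactorial S.card * (Fintype.card X).factorial) :=
          Nat.mul_le_mul_left _ ih
      _ = _ := by ring

theorem t_MPX : S_MPX := by
  intro X _ _ S T
  have h : (univ.filter fun π : Equiv.Perm X => ∀ a ∈ S, π a ∈ T) = mpx S T := by
    ext π
    rw [mem_filter, mem_mpx]
    simp
  have h2 := mpx_desc S T
  rw [← h] at h2
  convert h2

end Pool.Agent.L0h24.RF
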